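import Mathlib
import Pool.Agent.Helper75K9.FM.GlobalF
import Pool.Agent.Helper75K9.FM.NonVac
import Pool.Agent.Helper75K9.FM.Phi
import Pool.Agent.Helper75K9.FM.Clean2

/-!
# MP_395897_nt: condition 2 does not imply condition 1

The character `ρ = φ ∘ ε` of `G_F`, where `ε` is the `l`-adic cyclotomic character and
`φ(u)^{2m} = u^{-m}` (so `ρ` is `ε^{-1/2}` up to a character of finite order).  A geometric
Frobenius at `v ∤ l` acts by a number `α` with `α^{2m} = q_v^m`: an algebraic integer, all of whose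
conjugates have absolute value `q_v^{1/2}`.  At a place `v ∣ l`, a nonzero element of
`D_dR(ρ|_{G_{F_v}})` would give a nonzero `y ∈ ℂ_l` on which `Gal(ℚ̄_l/ℚ_l)` acts through
`ε^{m(1-2k)}`, contradicting Tate's theorem.
-/

noncomputable section

namespace Pool.Agent.Results.MP_395897_nt.SquareRootCyclotomic

open Helper75K9.FM NumberField

theorem nonempty_embedding (l : ℕ) [Fact l.Prime] (F : Type) [Field F] [NumberField F] :
    Nonempty (AlgebraicClosure F →+* PadicAlgCl l) := by
  have h1 : Algebra.IsAlgebraic ℚ (AlgebraicClosure F) :=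
    Algebra.IsAlgebraic.trans ℚ F (AlgebraicClosure F)
  exact ⟨(IsAlgClosed.lift : AlgebraicClosure F →ₐ[ℚ] PadicAlgCl l).toRingHom⟩

/-- For every prime `l` and every number field `F` there is a continuous character
`ρ : G_F → GL_1(ℚ̄_l)` which is unramified, integral and pure of weight `1` at every finite place
`v ∤ l` of `F` (given by a prime `P` of `Z̄`), and with `D_dR(ρ|_{G_{F_v}}) = 0` at every place
`v ∣ l` (given by an embedding `ι`), so that `ρ|_{G_{F_v}}` is not de Rham. -/
theorem result (l : ℕ) [Fact l.Prime] (F : Type) [Field F] [NumberField F] :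
    ∃ ρ : GF F →* (PadicAlgCl l)ˣ, Continuous ρ ∧
      (∀ P : Ideal (Zb F), P.IsPrime → P ≠ ⊥ → (l : Zb F) ∉ P →
        (∃ σ : GF F, IsGeomFrob P σ) ∧ UnramifiedIntegralPure ρ 1 P) ∧
      Nonempty (AlgebraicClosure F →+* PadicAlgCl l) ∧
      ∀ ι : AlgebraicClosure F →+* PadicAlgCl l,
        Ddr (Fv ι) (ρ.comp (localRestrict ι)) = ⊥ ∧
        ¬ IsDeRhamChar (Fv ι) (ρ.comp (localRestrict ι)) := by
  obtain ⟨m, φ, hm, hφc, hφ1, hφ2⟩ := exists_phi l
  refine ⟨rhoF F l φ, continuous_rhoF F hφc, ?_, nonempty_embedding l F, ?_⟩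
  · intro P hP hP0 hlP
    exact ⟨exists_isGeomFrob P hP hP0, rhoF_pure m hm hφ1 P hP0 hlP⟩
  · intro ι
    have hfd := finiteDimensional_Fv ι
    have hbot : Ddr (Fv ι) ((rhoF F l φ).comp (localRestrict ι)) = ⊥ := by
      refine ddr_eq_bot (Fv ι) m hm φ hφ1 hφ2 _ ?_
      intro g
      show φ (cycF F l (localRestrict ι g)) = _
      rw [cycF_localRestrict]
    refine ⟨hbot, ?_⟩
    unfold IsDeRhamChar
    rw [hbot, finrank_bot]
    exact (Module.finrank_pos (R := ℚ_[l]) (M := Fv ι)).ne

end Pool.Agent.Results.MP_395897_nt.SquareRootCyclotomic
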